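import Pool.Agent.W170.Z3.Stm
import Pool.Agent.H337R2.LZ.H4

/-! Task Z3-H4: the off-diagonal entries (`n = p`), from `StC1` (adapted from H387R3/ZF/H4, H4pre). -/

open Polynomial Pool.Agent.H337R2 Pool.Agent.W170.Z3

namespace Pool.Agent.W29.Z3

noncomputable section

set_option linter.unusedSectionVars false

section off

variable {p : ℕ} [hp : Fact p.Prime]

open Pool.Agent.H574R2.D3 (H4_norm_zpow H4_prod_le H4_prod_le_one)
open Pool.Agent.LZ (H4_a H4_a_nonneg H4_a_le_one H4_node)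

/-- the exponent at `n = p` is `0` -/
theorem H4_eF {p : ℕ} (hp : p.Prime) (k : ℕ) : eF p p k = 0 := by
  have hpp : (0 : ℤ) < p := by exact_mod_cast hp.pos
  have hd : ∀ a : ℕ, a * p / p = a := fun a => Nat.mul_div_cancel a hp.pos
  have hc : ∀ a b : ℕ, a ≤ b → (cnt p (a * p + 1) (b * p) k : ℤ) = b - a := by
    intro a b hab
    rw [cnt_eq p (a * p + 1) (b * p) k hp.pos (by
      have : a * p ≤ b * p := Nat.mul_le_mul_right p hab
      omega)]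
    have h1 : (((b * p : ℕ) : ℤ) - k) / p = (-(k : ℤ)) / p + b := by
      rw [show ((b * p : ℕ) : ℤ) - k = -(k : ℤ) + b * p by push_cast; ring,
        Int.add_mul_ediv_right _ _ hpp.ne']
    have h2 : (((a * p + 1 : ℕ) : ℤ) - 1 - k) / p = (-(k : ℤ)) / p + a := by
      rw [show ((a * p + 1 : ℕ) : ℤ) - 1 - k = -(k : ℤ) + a * p by push_cast; ring,
        Int.add_mul_ediv_right _ _ hpp.ne']
    rw [h1, h2]; ring
  have h0 := hc 0 4 (by norm_num)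
  have h1 := hc 0 6 (by norm_num)
  rw [zero_mul, zero_add] at h0 h1
  unfold eF
  rw [hd, hd, hd, h0, h1, hc 5 12 (by norm_num)]
  norm_num

/-- the total bound at the pole `k` -/
def H4_A (p r s l l' k : ℕ) : ℚ :=
  (H4_a p k r ^ l * ∏ r' ∈ (Finset.Icc 1 p).erase r, H4_a p k r' ^ 2) *
    (H4_a p k s ^ l' * ∏ r' ∈ (Finset.Icc 1 p).erase s, H4_a p k r' ^ 2)

lemma H4_A_nonneg (r s l l' k : ℕ) : 0 ≤ H4_A p r s l l' k := by
  unfold H4_A
  have h2 : ∀ r, 0 ≤ H4_a p k r := fun r => H4_a_nonneg k r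
  have h3 : ∀ (c : ℕ) (S : Finset ℕ), 0 ≤ ∏ r' ∈ S, H4_a p k r' ^ c := fun c S =>
    Finset.prod_nonneg fun i _ => pow_nonneg (h2 i) _
  exact mul_nonneg (mul_nonneg (pow_nonneg (h2 _) _) (h3 _ _))
    (mul_nonneg (pow_nonneg (h2 _) _) (h3 _ _))

lemma H4_PB (r s l l' k : ℕ) : PB p (p : ℚ) (H4_A p r s l l' k) (TS (-(k : ℚ))
    (((X + C (r : ℚ)) ^ l * OT p r 2) * ((X + C (s : ℚ)) ^ l' * OT p s 2))) := by
  have hp0 : (0 : ℚ) ≤ p := p_pos'.le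
  have h2 : ∀ r, 0 ≤ H4_a p k r := fun r => H4_a_nonneg k r
  have h3 : ∀ (c : ℕ) (S : Finset ℕ), 0 ≤ ∏ r' ∈ S, H4_a p k r' ^ c := fun c S =>
    Finset.prod_nonneg fun i _ => pow_nonneg (h2 i) _
  unfold H4_A OT
  rw [map_mul, map_mul, map_mul, map_prod, map_prod,
    map_pow (TS (-(k : ℚ))) (X + C (r : ℚ)),
    map_pow (TS (-(k : ℚ))) (X + C (s : ℚ))]
  have hprod : ∀ (c : ℕ) (S : Finset ℕ), PB p (p : ℚ) (∏ r' ∈ S, H4_a p k r' ^ c)
      (∏ r' ∈ S, TS (-(k : ℚ)) ((X + C (r' : ℚ)) ^ c)) := by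
    intro c S
    apply PB.prod _ _ _ hp0
    · intro i _; exact pow_nonneg (h2 i) _
    · intro i _
      rw [map_pow]
      exact PB.pow hp0 (h2 i) (H4_node k i) c
  refine PB.mul hp0 (mul_nonneg (pow_nonneg (h2 _) _) (h3 _ _))
    (mul_nonneg (pow_nonneg (h2 _) _) (h3 _ _)) ?_ ?_
  · exact PB.mul hp0 (pow_nonneg (h2 _) _) (h3 _ _) (PB.pow hp0 (h2 _) (H4_node k r) l) (hprod _ _)
  · exact PB.mul hp0 (pow_nonneg (h2 _) _) (h3 _ _) (PB.pow hp0 (h2 _) (H4_node k s) l') (hprod _ _)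

/-- numerical value of the bound -/
lemma H4_A_le (r s l l' : ℕ) (hr1 : 1 ≤ r) (hr2 : r ≤ p) (hs1 : 1 ≤ s)
    (hs2 : s ≤ p) (hrs : r ≠ s) (hl : l < 2) (hl' : l' < 2) (k : ℕ) :
    (p : ℚ) ^ ((l : ℤ) + l') * H4_A p r s l l' k ≤ (p : ℚ)⁻¹ := by
  have hp1 : (1 : ℚ) ≤ p := p_one'
  have hp0 : (0 : ℚ) < p := p_pos'
  have h2 : ∀ r, 0 ≤ H4_a p k r := fun r => H4_a_nonneg k r
  have h2' : ∀ r, H4_a p k r ≤ 1 := fun r => H4_a_le_one k r
  have h2p : ∀ c r, H4_a p k r ^ c ≤ 1 := fun c r => pow_le_one₀ (h2 r) (h2' r)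
  have h2n : ∀ c r, 0 ≤ H4_a p k r ^ c := fun c r => pow_nonneg (h2 r) _
  have h3 : ∀ (c : ℕ) (S : Finset ℕ), 0 ≤ ∏ r' ∈ S, H4_a p k r' ^ c := fun c S =>
    Finset.prod_nonneg fun i _ => h2n c i
  have h3' : ∀ (c : ℕ) (S : Finset ℕ), ∏ r' ∈ S, H4_a p k r' ^ c ≤ 1 := fun c S =>
    H4_prod_le_one S _ (h2n c) (h2p c)
  have hal : H4_a p k r ^ l ≤ 1 := pow_le_one₀ (h2 r) (h2' r)
  have hal' : H4_a p k s ^ l' ≤ 1 := pow_le_one₀ (h2 s) (h2' s)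
  have hal0 : 0 ≤ H4_a p k r ^ l := pow_nonneg (h2 r) _
  have hal0' : 0 ≤ H4_a p k s ^ l' := pow_nonneg (h2 s) _
  have hrI : r ∈ Finset.Icc 1 p := by rw [Finset.mem_Icc]; omega
  have hsI : s ∈ Finset.Icc 1 p := by rw [Finset.mem_Icc]; omega
  -- reduction to an exponent
  have fin : ∀ m : ℕ, H4_A p r s l l' k ≤ ((p : ℚ)⁻¹) ^ m → (l : ℤ) + l' - m ≤ -1 →
      (p : ℚ) ^ ((l : ℤ) + l') * H4_A p r s l l' k ≤ (p : ℚ)⁻¹ := by
    intro m h4 h5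
    calc (p : ℚ) ^ ((l : ℤ) + l') * H4_A p r s l l' k
        ≤ (p : ℚ) ^ ((l : ℤ) + l') * ((p : ℚ)⁻¹) ^ m :=
          mul_le_mul_of_nonneg_left h4 (zpow_nonneg hp0.le _)
      _ = (p : ℚ) ^ ((l : ℤ) + l' - m) := by
          rw [inv_pow, ← zpow_natCast, ← zpow_neg, ← zpow_add₀ hp0.ne']
          congr 1
      _ ≤ (p : ℚ) ^ (-1 : ℤ) := zpow_le_zpow_right₀ hp1 h5
      _ = (p : ℚ)⁻¹ := zpow_neg_one _
  -- the class of k
  obtain ⟨c, hc1, hc2, hc⟩ : ∃ c : ℕ, 1 ≤ c ∧ c ≤ p ∧ (p : ℤ) ∣ (c : ℤ) - k := by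
    have h5 : k % p < p := Nat.mod_lt _ hp.out.pos
    have h7 : p * (k / p) + k % p = k := Nat.div_add_mod k p
    have h7z : (p : ℤ) * ((k / p : ℕ) : ℤ) + ((k % p : ℕ) : ℤ) = k := by exact_mod_cast h7
    rcases Nat.eq_zero_or_pos (k % p) with h | h
    · refine ⟨p, hp.out.one_lt.le, le_rfl, 1 - ((k / p : ℕ) : ℤ), ?_⟩
      rw [h] at h7z
      push_cast at h7z ⊢
      linarith
    · refine ⟨k % p, h, h5.le, -((k / p : ℕ) : ℤ), ?_⟩
      linarith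
  have hac : H4_a p k c = (p : ℚ)⁻¹ := by unfold H4_a; rw [if_pos hc]
  have hcI : c ∈ Finset.Icc 1 p := Finset.mem_Icc.2 ⟨hc1, hc2⟩
  by_cases hcr : c = r
  · subst hcr
    apply fin (l + 2)
    · unfold H4_A
      have e1 : ∏ r' ∈ (Finset.Icc 1 p).erase s, H4_a p k r' ^ 2 ≤ H4_a p k c ^ 2 :=
        H4_prod_le _ (fun r' => H4_a p k r' ^ 2) (h2n 2) (h2p 2) c (Finset.mem_erase.2 ⟨hrs, hrI⟩)
      rw [pow_add, ← hac]
      calc _ ≤ (H4_a p k c ^ l * 1) * (1 * H4_a p k c ^ 2) := by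
            apply mul_le_mul _ _ (mul_nonneg hal0' (h3 _ _)) (by rw [mul_one]; exact hal0)
            · exact mul_le_mul_of_nonneg_left (h3' _ _) hal0
            · exact mul_le_mul hal' e1 (h3 _ _) zero_le_one
        _ = _ := by ring
    · push_cast; omega
  · by_cases hcs : c = s
    · subst hcs
      apply fin (l' + 2)
      · unfold H4_A
        have e1 : ∏ r' ∈ (Finset.Icc 1 p).erase r, H4_a p k r' ^ 2 ≤ H4_a p k c ^ 2 :=
          H4_prod_le _ (fun r' => H4_a p k r' ^ 2) (h2n 2) (h2p 2) c (Finset.mem_erase.2 ⟨hcr, hsI⟩)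
        rw [pow_add, ← hac]
        calc _ ≤ (1 * H4_a p k c ^ 2) * (H4_a p k c ^ l' * 1) := by
              apply mul_le_mul _ _ (mul_nonneg hal0' (h3 _ _)) (by rw [one_mul]; exact h2n _ _)
              · exact mul_le_mul hal e1 (h3 _ _) zero_le_one
              · exact mul_le_mul_of_nonneg_left (h3' _ _) hal0'
          _ = _ := by ring
      · push_cast; omega
    · apply fin 4
      · unfold H4_A
        have e1 : ∏ r' ∈ (Finset.Icc 1 p).erase r, H4_a p k r' ^ 2 ≤ H4_a p k c ^ 2 :=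
          H4_prod_le _ (fun r' => H4_a p k r' ^ 2) (h2n 2) (h2p 2) c (Finset.mem_erase.2 ⟨hcr, hcI⟩)
        have e2 : ∏ r' ∈ (Finset.Icc 1 p).erase s, H4_a p k r' ^ 2 ≤ H4_a p k c ^ 2 :=
          H4_prod_le _ (fun r' => H4_a p k r' ^ 2) (h2n 2) (h2p 2) c (Finset.mem_erase.2 ⟨hcs, hcI⟩)
        rw [show (4 : ℕ) = 2 + 2 from rfl, pow_add, ← hac]
        calc _ ≤ (1 * H4_a p k c ^ 2) * (1 * H4_a p k c ^ 2) := by
              apply mul_le_mul _ _ (mul_nonneg hal0' (h3 _ _)) (by rw [one_mul]; exact h2n _ _)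
              · exact mul_le_mul hal e1 (h3 _ _) zero_le_one
              · exact mul_le_mul hal' e2 (h3 _ _) zero_le_one
          _ = _ := by ring
      · push_cast; omega

/-- an integer constant times a `p`-adic number -/
lemma H4_natmul (c : ℕ) (x W : ℚ) (h : padicNorm p x ≤ W) : padicNorm p ((c : ℚ) * x) ≤ W := by
  rw [padicNorm.mul]
  refine le_trans ?_ h
  exact mul_le_of_le_one_left (padicNorm.nonneg _) (padicNorm.of_nat _)

/-- sizes of the parts of `xf` -/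
lemma H4_parts (hp100 : 100 ≤ p) (P : ℚ[X]) (W : ℚ) (hW : 0 ≤ W)
    (h : ∀ k ∈ sF p, ∀ i, padicNorm p (pa (sF p) mF P k i) * (p : ℚ) ^ i ≤ W) :
    (p : ℚ) ^ 2 * padicNorm p (rho p P) ≤ W ∧ padicNorm p (h3 p P) ≤ (p : ℚ) * W := by
  have hp1 : (1 : ℚ) ≤ p := p_one'
  have hp0 : (0 : ℚ) < p := p_pos'
  have hW2 : 0 ≤ (p : ℚ) * W := mul_nonneg hp0.le hW
  -- the coefficients times harmonic numbers
  have hh : ∀ k ∈ sF p, ∀ i : ℕ,
      padicNorm p (pa (sF p) mF P k i * hs (i + 1) (k - 4 * p - 1)) ≤ (p : ℚ) * W := by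
    intro k hk i
    rw [padicNorm.mul]
    have h1 : padicNorm p (hs (i + 1) (k - 4 * p - 1)) ≤ (p : ℚ) ^ (i + 1) := by
      refine hs_norm_med (p := p) (i + 1) (k - 4 * p - 1) ?_
      rw [sF, Finset.mem_Icc] at hk
      have : 12 * p < p * p := Nat.mul_lt_mul_of_pos_right (by omega) hp.out.pos
      rw [sq]
      omega
    calc _ ≤ padicNorm p (pa (sF p) mF P k i) * (p : ℚ) ^ (i + 1) :=
          mul_le_mul_of_nonneg_left h1 (padicNorm.nonneg _)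
      _ = (p : ℚ) * (padicNorm p (pa (sF p) mF P k i) * (p : ℚ) ^ i) := by rw [pow_add]; ring
      _ ≤ _ := mul_le_mul_of_nonneg_left (h k hk i) hp0.le
  constructor
  · have h0 : padicNorm p (rho p P) ≤ W / (p : ℚ) ^ 2 := by
      unfold rho
      apply padicNorm.sum_le' _ (div_nonneg hW (pow_nonneg hp0.le _))
      intro k hk
      rw [le_div_iff₀ (pow_pos hp0 2)]
      exact h k hk 2
    rw [le_div_iff₀ (pow_pos hp0 2)] at h0
    rw [mul_comm]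
    exact h0
  · unfold h3
    apply padicNorm.sum_le' _ hW2
    intro k hk
    refine padicNorm.nonarchimedean.trans (max_le ?_ ?_)
    · have := H4_natmul (p := p) 2 _ _ (hh k hk 2)
      rw [← mul_assoc] at this
      exact_mod_cast this
    · exact hh k hk 1

end off

open Pool.Agent.H574R2.D3 (H4_norm_zpow)

theorem H4_of (h1 : StC1) : StH4 := by
  intro p hpf hp100 x a b ha hb hab r s l l' hr1 hr2 hs1 hs2 hrs hl hl'
  have hP : p.Prime := hpf.out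
  have hp0 : (0 : ℚ) < p := p_pos'
  have hp1 : (1 : ℚ) ≤ p := p_one'
  set Q : ℚ[X] := ((X + C (r : ℚ)) ^ l * OT p r 2) * ((X + C (s : ℚ)) ^ l' * OT p s 2) with hQ
  have hkey : ∀ k ∈ sF p, ∀ i : ℕ,
      padicNorm p (pa (sF p) mF (PF p * Q) k i) * (p : ℚ) ^ i ≤
        (p : ℚ) ^ (-(l : ℤ) - (l' : ℤ)) * (p : ℚ)⁻¹ := by
    intro k hk i
    have h12 : 12 * p < p ^ 2 := by
      have : 12 * p < p * p := Nat.mul_lt_mul_of_pos_right (by omega) hP.pos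
      rw [sq]
      exact this
    have h2 := h1 (n := p) (by omega) h12 Q hk _ (H4_A_nonneg r s l l' k) (H4_PB r s l l' k) i
    have h3 := H4_A_le r s l l' hr1 hr2 hs1 hs2 hrs hl hl' k
    rw [H4_eF hP, neg_zero, zero_sub] at h2
    calc padicNorm p (pa (sF p) mF (PF p * Q) k i) * (p : ℚ) ^ i
        ≤ ((p : ℚ) ^ (-(i : ℤ)) * H4_A p r s l l' k) * (p : ℚ) ^ i :=
          mul_le_mul_of_nonneg_right h2 (by positivity)
      _ = H4_A p r s l l' k := by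
          rw [zpow_neg, zpow_natCast, mul_comm ((p : ℚ) ^ i)⁻¹, mul_assoc,
            inv_mul_cancel₀ (pow_ne_zero _ hp0.ne'), mul_one]
      _ = (p : ℚ) ^ (-(l : ℤ) - (l' : ℤ)) * ((p : ℚ) ^ ((l : ℤ) + l') * H4_A p r s l l' k) := by
          rw [← mul_assoc, ← zpow_add₀ hp0.ne',
            show -(l : ℤ) - (l' : ℤ) + ((l : ℤ) + l') = 0 by ring, zpow_zero, one_mul]
      _ ≤ _ := mul_le_mul_of_nonneg_left h3 (by positivity)
  obtain ⟨e1, e2⟩ := H4_parts (p := p) hp100 (PF p * Q)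
    ((p : ℚ) ^ (-(l : ℤ) - (l' : ℤ)) * (p : ℚ)⁻¹) (by positivity) hkey
  rw [NL_apply]
  unfold xf
  have h2p : (p : ℚ) ≠ 0 := hp0.ne'
  have hx : a * ((p : ℚ) ^ (1 - (l : ℤ) - (l' : ℤ)) * (2 * x * rho p (PF p * Q) - h3 p (PF p * Q))) =
      ((2 : ℕ) : ℚ) * (b * ((p : ℚ) ^ (-2 - (l : ℤ) - (l' : ℤ)) * rho p (PF p * Q))) -
        a * ((p : ℚ) ^ (1 - (l : ℤ) - (l' : ℤ)) * h3 p (PF p * Q)) := by
    have h3 : (p : ℚ) ^ (1 - (l : ℤ) - (l' : ℤ)) = (p : ℚ) ^ (-2 - (l : ℤ) - (l' : ℤ)) * (p : ℚ) ^ 3 := by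
      rw [← zpow_natCast (p : ℚ) 3, ← zpow_add₀ h2p]
      congr 1
      push_cast
      ring
    rw [← hab, h3]
    push_cast
    ring
  rw [hx]
  refine padicNorm.sub.trans (max_le ?_ ?_)
  · refine H4_natmul (p := p) 2 _ _ ?_
    rw [padicNorm.mul]
    refine (mul_le_of_le_one_left (padicNorm.nonneg _) hb).trans ?_
    rw [padicNorm.mul, H4_norm_zpow]
    calc (p : ℚ) ^ (-(-2 - (l : ℤ) - (l' : ℤ))) * padicNorm p (rho p (PF p * Q))
        = (p : ℚ) ^ ((l : ℤ) + l') * ((p : ℚ) ^ 2 * padicNorm p (rho p (PF p * Q))) := by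
          have hz : (p : ℚ) ^ (-(-2 - (l : ℤ) - (l' : ℤ))) = (p : ℚ) ^ ((l : ℤ) + l') * (p : ℚ) ^ 2 := by
            rw [← zpow_natCast (p : ℚ) 2, ← zpow_add₀ h2p]
            congr 1
            push_cast
            ring
          rw [hz, mul_assoc]
      _ ≤ (p : ℚ) ^ ((l : ℤ) + l') * ((p : ℚ) ^ (-(l : ℤ) - (l' : ℤ)) * (p : ℚ)⁻¹) :=
          mul_le_mul_of_nonneg_left e1 (by positivity)
      _ = (p : ℚ)⁻¹ := by
          rw [← mul_assoc, ← zpow_add₀ h2p,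
            show (l : ℤ) + l' + (-(l : ℤ) - (l' : ℤ)) = 0 by ring, zpow_zero, one_mul]
  · rw [padicNorm.mul]
    refine (mul_le_of_le_one_left (padicNorm.nonneg _) ha).trans ?_
    rw [padicNorm.mul, H4_norm_zpow]
    calc (p : ℚ) ^ (-(1 - (l : ℤ) - (l' : ℤ))) * padicNorm p (h3 p (PF p * Q))
        ≤ (p : ℚ) ^ (-(1 - (l : ℤ) - (l' : ℤ))) *
          ((p : ℚ) * ((p : ℚ) ^ (-(l : ℤ) - (l' : ℤ)) * (p : ℚ)⁻¹)) :=
          mul_le_mul_of_nonneg_left e2 (by positivity)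
      _ = (p : ℚ)⁻¹ := by
          have h4 : (p : ℚ) ^ (-(1 - (l : ℤ) - (l' : ℤ))) * ((p : ℚ) ^ (-(l : ℤ) - (l' : ℤ))) =
              (p : ℚ)⁻¹ := by
            rw [← zpow_add₀ h2p, show -(1 - (l : ℤ) - (l' : ℤ)) + (-(l : ℤ) - (l' : ℤ)) = -1 by ring,
              zpow_neg_one]
          calc _ = ((p : ℚ) ^ (-(1 - (l : ℤ) - (l' : ℤ))) * ((p : ℚ) ^ (-(l : ℤ) - (l' : ℤ)))) *
                ((p : ℚ) * (p : ℚ)⁻¹) := by ring
            _ = _ := by rw [h4, mul_inv_cancel₀ h2p, mul_one]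

end

end Pool.Agent.W29.Z3
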